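import Pool.Agent.Helper13.HE.St

/-! # Project HE, module CX: COV and X3 -/

set_option autoImplicit false

open Module Classical
open scoped LinearAlgebra.Projectivization

namespace Pool.Agent.Helper28.HE

open Pool.Agent.Helper13.HE Pool.Agent.Helper53.PB

universe u v

section aux

variable {F : Type u} [Field F] {V : Type v} [AddCommGroup V] [Module F V]

private theorem two_zero [Finite F] {h : ℕ} (hq : Nat.card F = 2 ^ h) (h1 : 1 ≤ h) : (2 : F) = 0 := by
  have hfin : Fintype F := Fintype.ofFinite F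
  have hcard : Fintype.card F = 2 ^ h := by rw [← Nat.card_eq_fintype_card, hq]
  have hp : Fact (Nat.Prime 2) := ⟨Nat.prime_two⟩
  have hc : CharP F 2 := charP_of_card_eq_prime_pow hcard
  exact_mod_cast CharP.cast_eq_zero F 2

private theorem pol_self (h2 : (2 : F) = 0) (Q : QuadraticForm F V) (x : V) :
    QuadraticMap.polar Q x x = 0 := by
  rw [QuadraticMap.polar_self, nsmul_eq_mul]
  have : ((2 : ℕ) : F) = 0 := by exact_mod_cast h2
  rw [this, zero_mul]

private theorem exists_two [FiniteDimensional F V] (W K : Submodule F V) (hWK : W ≤ K)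
    (hr : finrank F K ≤ finrank F W + 2) :
    ∃ v₁ ∈ K, ∃ v₂ ∈ K, K ≤ W ⊔ Submodule.span F {v₁} ⊔ Submodule.span F {v₂} := by
  by_cases h1 : K ≤ W
  · exact ⟨0, K.zero_mem, 0, K.zero_mem, h1.trans (le_sup_left.trans le_sup_left)⟩
  · obtain ⟨v₁, hv₁, hn₁⟩ := SetLike.not_le_iff_exists.1 h1
    by_cases h2 : K ≤ W ⊔ Submodule.span F {v₁}
    · exact ⟨v₁, hv₁, 0, K.zero_mem, h2.trans le_sup_left⟩
    · obtain ⟨v₂, hv₂, hn₂⟩ := SetLike.not_le_iff_exists.1 h2
      refine ⟨v₁, hv₁, v₂, hv₂, ?_⟩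
      have l1 : W < W ⊔ Submodule.span F {v₁} := by
        refine lt_of_le_of_ne le_sup_left fun h => hn₁ ?_
        rw [h]
        exact Submodule.mem_sup_right (Submodule.mem_span_singleton_self _)
      have l2 : W ⊔ Submodule.span F {v₁} <
          W ⊔ Submodule.span F {v₁} ⊔ Submodule.span F {v₂} := by
        refine lt_of_le_of_ne le_sup_left fun h => hn₂ ?_
        rw [h]
        exact Submodule.mem_sup_right (Submodule.mem_span_singleton_self _)
      have f1 := Submodule.finrank_lt_finrank_of_lt l1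
      have f2 := Submodule.finrank_lt_finrank_of_lt l2
      have l3 : W ⊔ Submodule.span F {v₁} ⊔ Submodule.span F {v₂} ≤ K := by
        rw [sup_le_iff, sup_le_iff, Submodule.span_singleton_le_iff_mem,
          Submodule.span_singleton_le_iff_mem]
        exact ⟨⟨hWK, hv₁⟩, hv₂⟩
      exact (Submodule.eq_of_le_of_finrank_le l3 (by omega)).ge

private theorem line_zero (h2 : (2 : F) = 0) (Q : QuadraticForm F V) (W K : Submodule F V)
    (hWK : W ≤ K) (hb : ∀ x ∈ W, ∀ y ∈ K, QuadraticMap.polar Q x y = 0) (v : V) (hv : v ∈ K) :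
    ∀ x ∈ W ⊔ Submodule.span F {v}, ∀ x' ∈ W ⊔ Submodule.span F {v},
      QuadraticMap.polar Q x x' = 0 := by
  intro x hx x' hx'
  obtain ⟨w, hw, z, hz, rfl⟩ := Submodule.mem_sup.1 hx
  obtain ⟨w', hw', z', hz', rfl⟩ := Submodule.mem_sup.1 hx'
  obtain ⟨a, rfl⟩ := Submodule.mem_span_singleton.1 hz
  obtain ⟨a', rfl⟩ := Submodule.mem_span_singleton.1 hz'
  rw [QuadraticMap.polar_add_left, QuadraticMap.polar_add_right, QuadraticMap.polar_add_right,
    hb w hw w' (hWK hw'), hb w hw (a' • v) (K.smul_mem _ hv),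
    QuadraticMap.polar_comm Q (a • v) w', hb w' hw' (a • v) (K.smul_mem _ hv),
    QuadraticMap.polar_smul_left, QuadraticMap.polar_smul_right, pol_self h2]
  simp

end aux

theorem hCOV (hCLQ : StCLQ.{u, v}) : StCOV.{u, v} := by
  intro F _ _ V _ _ _ Q T H m h j c W K hWK hb hr
  have hfin : Fintype F := Fintype.ofFinite F
  have h2 : (2 : F) = 0 := two_zero c.hq c.h1
  obtain ⟨v₁, hv₁, v₂, hv₂, hK⟩ := exists_two W K hWK hr
  obtain ⟨E, hE⟩ : ∃ E : Option F → V, E = fun o => o.elim v₂ (fun a => v₁ + a • v₂) := ⟨_, rfl⟩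
  have hEK : ∀ o, E o ∈ K := by
    intro o
    rw [hE]
    cases o with
    | none => exact hv₂
    | some a => exact K.add_mem hv₁ (K.smul_mem _ hv₂)
  have hcov : ∀ x ∈ K, ∃ o, x ∈ W ⊔ Submodule.span F {E o} := by
    intro x hx
    obtain ⟨y, hy, z, hz, rfl⟩ := Submodule.mem_sup.1 (hK hx)
    obtain ⟨w, hw, t, ht, rfl⟩ := Submodule.mem_sup.1 hy
    obtain ⟨b, rfl⟩ := Submodule.mem_span_singleton.1 hz
    obtain ⟨a, rfl⟩ := Submodule.mem_span_singleton.1 ht
    by_cases ha : a = 0
    · refine ⟨none, Submodule.mem_sup.2 ⟨w, hw, b • v₂, ?_, ?_⟩⟩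
      · rw [hE]
        exact Submodule.smul_mem _ _ (Submodule.mem_span_singleton_self _)
      · rw [ha, zero_smul, add_zero]
    · refine ⟨some (b / a), Submodule.mem_sup.2 ⟨w, hw, a • (v₁ + (b / a) • v₂), ?_, ?_⟩⟩
      · rw [hE]
        exact Submodule.smul_mem _ _ (Submodule.mem_span_singleton_self _)
      · rw [smul_add, smul_smul, mul_div_cancel₀ _ ha, add_assoc]
  have h3 : T.filter (fun y => y.rep ∈ K) ⊆
      Finset.univ.biUnion (fun o : Option F =>
        T.filter (fun y => y.rep ∈ W ⊔ Submodule.span F {E o})) := by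
    intro y hy
    rw [Finset.mem_filter] at hy
    obtain ⟨o, ho⟩ := hcov _ hy.2
    rw [Finset.mem_biUnion]
    exact ⟨o, Finset.mem_univ _, Finset.mem_filter.2 ⟨hy.1, ho⟩⟩
  have h4 : ∀ o ∈ (Finset.univ : Finset (Option F)),
      (T.filter (fun y => y.rep ∈ W ⊔ Submodule.span F {E o})).card ≤ 1 + j := by
    intro o _
    exact (hCLQ F V Q T H m h j c).1 (W ⊔ Submodule.span F {E o})
      (fun P _ hPE X _ hXE => line_zero h2 Q W K hWK hb (E o) (hEK o) _ hPE _ hXE)
  have h5 := (Finset.card_le_card h3).trans Finset.card_biUnion_le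
  have h6 := Finset.sum_le_card_nsmul _ _ _ h4
  rw [Finset.card_univ, Fintype.card_option, ← Nat.card_eq_fintype_card, smul_eq_mul] at h6
  exact h5.trans h6

section X3

variable {F : Type u} [Field F] {V : Type v} [AddCommGroup V] [Module F V]

/-- a vector outside a line of a subspace of dimension three -/
private theorem span_three [FiniteDimensional F V] {K : Submodule F V} (h3 : finrank F K = 3)
    {P X : ℙ F V} (hPX : P ≠ X) (hP : P.rep ∈ K) (hX : X.rep ∈ K) {y : V} (hy : y ∈ K)
    (hn : y ∉ line P X) : ∀ x ∈ K, ∃ a b g : F, x = a • P.rep + b • X.rep + g • y := by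
  have l1 : line P X < line P X ⊔ Submodule.span F {y} := by
    refine lt_of_le_of_ne le_sup_left fun h => hn ?_
    rw [h]
    exact Submodule.mem_sup_right (Submodule.mem_span_singleton_self _)
  have f1 := Submodule.finrank_lt_finrank_of_lt l1
  rw [finrank_line hPX] at f1
  have l3 : line P X ⊔ Submodule.span F {y} ≤ K := by
    rw [sup_le_iff, Submodule.span_singleton_le_iff_mem]
    exact ⟨line_le hP hX, hy⟩
  have e := Submodule.eq_of_le_of_finrank_le l3 (by omega)
  intro x hx
  rw [← e] at hx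
  obtain ⟨z, hz, t, ht, rfl⟩ := Submodule.mem_sup.1 hx
  obtain ⟨a, b, rfl⟩ := mem_line.1 hz
  obtain ⟨g, rfl⟩ := Submodule.mem_span_singleton.1 ht
  exact ⟨a, b, g, rfl⟩

private theorem Q_line (Q : QuadraticForm F V) {P X : ℙ F V} (hP : Q P.rep = 0)
    (hX : Q X.rep = 0) (a b : F) :
    Q (a • P.rep + b • X.rep) = a * b * QuadraticMap.polar Q P.rep X.rep := by
  have h : Q (a • P.rep + b • X.rep) = Q (a • P.rep) + Q (b • X.rep) +
      QuadraticMap.polar Q (a • P.rep) (b • X.rep) := by
    unfold QuadraticMap.polar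
    abel
  rw [h, QuadraticMap.map_smul, QuadraticMap.map_smul, hP, hX, QuadraticMap.polar_smul_left,
    QuadraticMap.polar_smul_right]
  simp [mul_assoc]

private theorem caseA [Finite F] [FiniteDimensional F V] {Q : QuadraticForm F V}
    {T H : Finset (ℙ F V)} {m : ℙ F V → ℕ} {h j : ℕ} (c : Cfg Q T H m h j)
    (hcl : ∀ P ∈ T, (T.filter (fun X => QuadraticMap.polar Q P.rep X.rep = 0)).card ≤ 1 + j)
    {K : Submodule F V} (h3 : finrank F K = 3) {y : V} (hy : y ∈ K) (hy0 : y ≠ 0)
    (hQy : Q y = 0) (hby : ∀ x ∈ K, QuadraticMap.polar Q y x = 0) :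
    tt T K ≤ 2 * (1 + j) := by
  have h2 : (2 : F) = 0 := two_zero c.hq c.h1
  unfold tt
  by_cases hex : ∃ P₁ ∈ T.filter (fun y => y.rep ∈ K), ∃ P₂ ∈ T.filter (fun y => y.rep ∈ K),
      QuadraticMap.polar Q P₁.rep P₂.rep ≠ 0
  · obtain ⟨P₁, m₁, P₂, m₂, hne⟩ := hex
    rw [Finset.mem_filter] at m₁ m₂
    have hPP : P₁ ≠ P₂ := by
      intro e
      rw [e] at hne
      exact hne (pol_self h2 Q _)
    have hn : y ∉ line P₁ P₂ := by
      intro hyl
      obtain ⟨a, b, e⟩ := mem_line.1 hyl
      have e1 := hby P₁.rep m₁.2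
      have e2 := hby P₂.rep m₂.2
      rw [← e, QuadraticMap.polar_add_left, QuadraticMap.polar_smul_left,
        QuadraticMap.polar_smul_left] at e1 e2
      rw [pol_self h2, QuadraticMap.polar_comm Q P₂.rep P₁.rep] at e1
      rw [pol_self h2] at e2
      simp only [smul_eq_mul, mul_zero, zero_add, add_zero, mul_eq_zero, hne, or_false] at e1 e2
      rw [e1, e2, zero_smul, zero_smul, add_zero] at e
      exact hy0 e.symm
    have sub : T.filter (fun y => y.rep ∈ K) ⊆
        T.filter (fun X => QuadraticMap.polar Q P₁.rep X.rep = 0) ∪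
        T.filter (fun X => QuadraticMap.polar Q P₂.rep X.rep = 0) := by
      intro P₃ hP₃
      rw [Finset.mem_filter] at hP₃
      obtain ⟨a, b, g, e⟩ := span_three h3 hPP m₁.2 m₂.2 hy hn P₃.rep hP₃.2
      have hz : QuadraticMap.polar Q (a • P₁.rep + b • P₂.rep) (g • y) = 0 := by
        rw [QuadraticMap.polar_comm, QuadraticMap.polar_smul_left,
          hby _ (K.add_mem (K.smul_mem _ m₁.2) (K.smul_mem _ m₂.2)), smul_zero]
      have e3 : Q P₃.rep = a * b * QuadraticMap.polar Q P₁.rep P₂.rep := by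
        have h4 : Q (a • P₁.rep + b • P₂.rep + g • y) = Q (a • P₁.rep + b • P₂.rep) + Q (g • y) +
            QuadraticMap.polar Q (a • P₁.rep + b • P₂.rep) (g • y) := by
          unfold QuadraticMap.polar
          abel
        rw [e, h4, hz, Q_line Q (c.sT _ m₁.1) (c.sT _ m₂.1), QuadraticMap.map_smul, hQy]
        simp
      rw [c.sT _ hP₃.1] at e3
      have e4 : a = 0 ∨ b = 0 := by
        have := e3.symm
        simpa [hne] using this
      rw [Finset.mem_union, Finset.mem_filter, Finset.mem_filter]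
      have hy1 : QuadraticMap.polar Q P₁.rep y = 0 := by
        rw [QuadraticMap.polar_comm]; exact hby _ m₁.2
      have hy2 : QuadraticMap.polar Q P₂.rep y = 0 := by
        rw [QuadraticMap.polar_comm]; exact hby _ m₂.2
      rcases e4 with h0 | h0
      · right
        refine ⟨hP₃.1, ?_⟩
        rw [e, h0, zero_smul, zero_add, QuadraticMap.polar_add_right,
          QuadraticMap.polar_smul_right, QuadraticMap.polar_smul_right, hy2, pol_self h2]
        simp
      · left
        refine ⟨hP₃.1, ?_⟩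
        rw [e, h0, zero_smul, add_zero, QuadraticMap.polar_add_right,
          QuadraticMap.polar_smul_right, QuadraticMap.polar_smul_right, hy1, pol_self h2]
        simp
    have h5 := (Finset.card_le_card sub).trans (Finset.card_union_le _ _)
    have h6 := hcl P₁ m₁.1
    have h7 := hcl P₂ m₂.1
    omega
  · push Not at hex
    rcases (T.filter (fun y => y.rep ∈ K)).eq_empty_or_nonempty with he | ⟨P, hP⟩
    · rw [he, Finset.card_empty]
      exact Nat.zero_le _
    · have sub : T.filter (fun y => y.rep ∈ K) ⊆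
          T.filter (fun X => QuadraticMap.polar Q P.rep X.rep = 0) := by
        intro X hX
        exact Finset.mem_filter.2 ⟨(Finset.mem_filter.1 hX).1, hex P hP X hX⟩
      have h5 := Finset.card_le_card sub
      have h6 := hcl P (Finset.mem_filter.1 hP).1
      omega

end X3

theorem hX3 (hRKB : StRKB.{u, v}) (hPAR : StPAR.{u, v}) (hCLQ : StCLQ.{u, v}) :
    StX3.{u, v} := by
  intro F _ _ V _ _ _ Q T H m h j c hh K h3
  have h2 : (2 : F) = 0 := two_zero c.hq c.h1
  have hcl := (hCLQ F V Q T H m h j c).2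
  have hj := c.hj
  have hq4 : 4 ≤ Nat.card F := by
    rw [c.hq]
    calc 4 = 2 ^ 2 := by norm_num
      _ ≤ 2 ^ h := Nat.pow_le_pow_right (by norm_num) hh
  have fin : tt T K ≤ 2 * (1 + j) → tt T K ≤ 2 * (Nat.card F - 1) := by
    intro h'
    omega
  obtain ⟨y, hy, hy0, hby⟩ := hPAR F V Q h c.hq c.h1 K (by rw [h3]; exact ⟨1, rfl⟩)
  by_cases hQy : Q y = 0
  · exact fin (caseA c hcl h3 hy hy0 hQy hby)
  · by_cases hex : ∃ P ∈ T.filter (fun y => y.rep ∈ K), ∃ X ∈ T.filter (fun y => y.rep ∈ K),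
        P ≠ X ∧ QuadraticMap.polar Q P.rep X.rep = 0
    · obtain ⟨P, mP, X, mX, hPX, hb⟩ := hex
      rw [Finset.mem_filter] at mP mX
      have hn : y ∉ line P X := by
        intro hyl
        obtain ⟨a, b, e⟩ := mem_line.1 hyl
        apply hQy
        rw [← e, Q_line Q (c.sT _ mP.1) (c.sT _ mX.1), hb, mul_zero]
      refine fin (caseA c hcl h3 mP.2 P.rep_nonzero (c.sT _ mP.1) ?_)
      intro x hx
      obtain ⟨a, b, g, rfl⟩ := span_three h3 hPX mP.2 mX.2 hy hn x hx
      rw [QuadraticMap.polar_add_right, QuadraticMap.polar_add_right,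
        QuadraticMap.polar_smul_right, QuadraticMap.polar_smul_right,
        QuadraticMap.polar_smul_right, hb, pol_self h2, QuadraticMap.polar_comm Q P.rep y,
        hby _ mP.2]
      simp
    · push Not at hex
      have h8 := hRKB F V Q h 2 c.hq c.h1 K y hy hy0 hby (by rw [h3])
        (T.filter (fun y => y.rep ∈ K)) (fun P hP => (Finset.mem_filter.1 hP).2)
        (fun P hP X hX hne => hex P hP X hX hne)
      rw [← c.hq] at h8
      unfold tt
      omega

end Pool.Agent.Helper28.HE
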